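import Pool.Agent.Y305.BC.Stm

/-! BC-TRA: a current without boundary does not change under translations along a sheet. -/

set_option autoImplicit false
set_option maxSynthPendingDepth 3

open MeasureTheory Metric Set Filter Topology
open scoped ContDiff ENNReal

namespace Pool.Agent.Y897.BC.Tra

open Pool.Agent.Y305.BC

/-- the first coordinate -/
noncomputable def fs : E →L[ℝ] ℂ :=
  (ContinuousLinearMap.fst ℝ ℂ ℂ).comp
    (WithLp.prodContinuousLinearEquiv 2 ℝ ℂ ℂ : E →L[ℝ] ℂ × ℂ)

theorem fs_apply (x : E) : fs x = x.fst := rfl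

/-- the form `v.re dy - v.im dx` -/
noncomputable def al (v : ℂ) : E →L[ℝ] ℝ :=
  (v.re • Complex.imCLM - v.im • Complex.reCLM).comp fs

theorem al_apply (v : ℂ) (y : E) : al v y = v.re * y.fst.im - v.im * y.fst.re := rfl

theorem lin_re_im (a : ℂ →L[ℝ] ℝ) (z : ℂ) : a z = z.re * a 1 + z.im * a Complex.I := by
  conv_lhs => rw [← Complex.re_add_im z]
  have h : (z.re : ℂ) + z.im * Complex.I = z.re • (1 : ℂ) + z.im • Complex.I := by
    simp
  rw [h, map_add, map_smul, map_smul, smul_eq_mul, smul_eq_mul]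

theorem wedge (a : ℂ →L[ℝ] ℝ) (v : ℂ) (y z : E) :
    a y.fst * al v z - a z.fst * al v y = a v * vol y z := by
  rw [al_apply, al_apply, vol_apply, lin_re_im a y.fst, lin_re_im a z.fst, lin_re_im a v]
  ring

/-- Taylor's formula with a quadratic remainder -/
theorem taylor (ψ : ℂ → ℝ) (hψ : ContDiff ℝ ∞ ψ) (hc : HasCompactSupport ψ) (v : ℂ) :
    ∃ B : ℝ, 0 < B ∧ ∀ (a : ℂ) (h : ℝ),
      |ψ (a - h • v) - ψ a + h * fderiv ℝ ψ a v| ≤ B * h ^ 2 := by
  have h1 : ContDiff ℝ ∞ (fderiv ℝ ψ) := hψ.fderiv_right (by simp)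
  obtain ⟨K, hK⟩ := h1.lipschitzWith_of_hasCompactSupport (hc.fderiv ℝ) (by simp)
  refine ⟨K * ‖v‖ ^ 2 + 1, by positivity, fun a h => ?_⟩
  have key := (convex_segment a (a - h • v)).norm_image_sub_le_of_norm_fderiv_le'
    (f := ψ) (φ := fderiv ℝ ψ a) (C := K * (|h| * ‖v‖)) (x := a) (y := a - h • v)
    (fun x _ => hψ.differentiable (by simp) x) ?_ (left_mem_segment ℝ _ _)
    (right_mem_segment ℝ _ _)
  · have e1 : a - h • v - a = -(h • v) := by ring
    rw [e1, map_neg, map_smul, smul_eq_mul, sub_neg_eq_add, norm_neg, norm_smul,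
      Real.norm_eq_abs, Real.norm_eq_abs] at key
    refine key.trans ?_
    have : (K : ℝ) * (|h| * ‖v‖) * (|h| * ‖v‖) = K * ‖v‖ ^ 2 * |h| ^ 2 := by ring
    rw [this, sq_abs]
    nlinarith [sq_nonneg h]
  · intro x hx
    have e2 := hK.dist_le_mul x a
    rw [dist_eq_norm, dist_eq_norm] at e2
    refine e2.trans ?_
    refine mul_le_mul_of_nonneg_left ?_ K.2
    have e3 := norm_sub_le_of_mem_segment hx
    refine e3.trans ?_
    have e1 : a - h • v - a = -(h • v) := by ring
    rw [e1, norm_neg, norm_smul, Real.norm_eq_abs]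

/-- the sum of two forms -/
theorem Form2.add {U : Set E} {θ₁ θ₂ : F2} (h₁ : Form2 U θ₁) (h₂ : Form2 U θ₂) (a b : ℝ) :
    Form2 U (a • θ₁ + b • θ₂) := by
  obtain ⟨c1, k1, s1, z1⟩ := h₁
  obtain ⟨c2, k2, s2, z2⟩ := h₂
  have hs : tsupport (a • θ₁ + b • θ₂) ⊆ tsupport θ₁ ∪ tsupport θ₂ := by
    refine closure_minimal ?_ ((isClosed_tsupport _).union (isClosed_tsupport _))
    intro x hx
    by_contra hn
    rw [mem_union, not_or] at hn
    apply hx
    show a • θ₁ x + b • θ₂ x = 0
    rw [image_eq_zero_of_notMem_tsupport hn.1, image_eq_zero_of_notMem_tsupport hn.2,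
      smul_zero, smul_zero, add_zero]
  refine ⟨(c1.const_smul a).add (c2.const_smul b), ?_, hs.trans (union_subset s1 s2), ?_⟩
  · exact (k1.isCompact.union k2.isCompact).of_isClosed_subset (isClosed_tsupport _) hs
  · intro x v
    show a * θ₁ x v v + b * θ₂ x v v = 0
    rw [z1, z2, mul_zero, mul_zero, add_zero]

/-- smooth functions times the area form -/
theorem form_wf {U : Set E} {φ : ℂ → ℝ} {m : E → ℝ} (hφ : ContDiff ℝ ∞ φ) (hm : ContDiff ℝ ∞ m)
    (hc : HasCompactSupport m) (hU : tsupport m ⊆ U) :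
    Form2 U (wf φ m) ∧ tsupport (wf φ m) ⊆ tsupport m := by
  have hs : tsupport (wf φ m) ⊆ tsupport m := by
    refine closure_mono ?_
    intro x hx hn
    apply hx
    show (φ x.fst * m x) • vol = 0
    rw [hn, mul_zero, zero_smul]
  refine ⟨⟨?_, ?_, hs.trans hU, ?_⟩, hs⟩
  · exact ((hφ.comp fs.contDiff).mul hm).smul contDiff_const
  · exact hc.isCompact.of_isClosed_subset (isClosed_tsupport _) hs
  · intro x v
    show (φ x.fst * m x) * vol v v = 0
    rw [vol_apply]
    ring

/-- the primitive -/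
noncomputable def et (φ : ℂ → ℝ) (m : E → ℝ) (v : ℂ) : F1 := fun x => (φ x.fst * m x) • al v

theorem form_et {U : Set E} {φ : ℂ → ℝ} {m : E → ℝ} (hφ : ContDiff ℝ ∞ φ) (hm : ContDiff ℝ ∞ m)
    (hc : HasCompactSupport m) (hU : tsupport m ⊆ U) (v : ℂ) :
    Form1 U (et φ m v) ∧ tsupport (et φ m v) ⊆ tsupport m := by
  have hs : tsupport (et φ m v) ⊆ tsupport m := by
    refine closure_mono ?_
    intro x hx hn
    apply hx
    show (φ x.fst * m x) • al v = 0
    rw [hn, mul_zero, zero_smul]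
  refine ⟨⟨?_, ?_, hs.trans hU⟩, hs⟩
  · exact ((hφ.comp fs.contDiff).mul hm).smul contDiff_const
  · exact hc.isCompact.of_isClosed_subset (isClosed_tsupport _) hs

theorem form_d {U : Set E} {η : F1} (h : Form1 U η) : Form2 U (d η) := by
  obtain ⟨c, k, s⟩ := h
  have hf : ContDiff ℝ ∞ (fderiv ℝ η) := c.fderiv_right (by simp)
  have hs : tsupport (d η) ⊆ tsupport η := by
    refine closure_minimal ?_ (isClosed_tsupport _)
    intro x hx
    by_contra hn
    apply hx
    have : fderiv ℝ η x = 0 := by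
      have := mt (fun h => tsupport_fderiv_subset ℝ h) hn
      exact image_eq_zero_of_notMem_tsupport this
    show fderiv ℝ η x - (fderiv ℝ η x).flip = 0
    rw [this]
    ext v w
    simp
  refine ⟨?_, ?_, hs.trans s, ?_⟩
  · refine hf.sub ?_
    exact (ContinuousLinearMap.flipₗᵢ ℝ E E ℝ).toContinuousLinearEquiv.contDiff.comp hf
  · exact k.isCompact.of_isClosed_subset (isClosed_tsupport _) hs
  · intro x v
    show fderiv ℝ η x v v - fderiv ℝ η x v v = 0
    ring

/-- the remainder form -/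
noncomputable def rest (φ : ℂ → ℝ) (m : E → ℝ) (v : ℂ) : F2 := fun x =>
  d (et φ m v) x - wf (fun z => fderiv ℝ φ z v) m x

theorem et_fderiv {φ : ℂ → ℝ} {m : E → ℝ} (hφ : ContDiff ℝ ∞ φ) (hm : ContDiff ℝ ∞ m) (v : ℂ)
    (x y z : E) : fderiv ℝ (et φ m v) x y z =
      (fderiv ℝ φ x.fst y.fst * m x + φ x.fst * fderiv ℝ m x y) * al v z := by
  have h1 : HasFDerivAt (fun x : E => φ x.fst) ((fderiv ℝ φ x.fst).comp fs) x :=
    HasFDerivAt.comp (f := fs) x (hφ.differentiable (by simp) _).hasFDerivAt fs.hasFDerivAt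
  have h2 : HasFDerivAt m (fderiv ℝ m x) x := (hm.differentiable (by simp) _).hasFDerivAt
  have h3 := (h1.mul h2).smul_const (al v)
  have h4 : fderiv ℝ (et φ m v) x = _ := h3.fderiv
  rw [h4]
  show (φ x.fst * fderiv ℝ m x y + m x * fderiv ℝ φ x.fst y.fst) * al v z = _
  ring

theorem rest_apply {φ : ℂ → ℝ} {m : E → ℝ} (hφ : ContDiff ℝ ∞ φ) (hm : ContDiff ℝ ∞ m) (v : ℂ)
    (x y z : E) : rest φ m v x y z =
      φ x.fst * (fderiv ℝ m x y * al v z - fderiv ℝ m x z * al v y) := by
  show (fderiv ℝ (et φ m v) x y z - fderiv ℝ (et φ m v) x z y) -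
    (fderiv ℝ φ x.fst v * m x) * vol y z = _
  rw [et_fderiv hφ hm, et_fderiv hφ hm]
  have := wedge (fderiv ℝ φ x.fst) v y z
  linear_combination m x * this

theorem tra : S_TRA := by
  intro U T Z hU hT hZ hd ψ m v O hψ hψc hm hmc hmU hO hmO hcond
  -- the translated functions
  have hsm : ∀ s : ℝ, ContDiff ℝ ∞ (fun z => ψ (z - s • v)) := fun s =>
    hψ.comp (contDiff_id.sub contDiff_const)
  have hder : ∀ (s : ℝ) (z : ℂ), fderiv ℝ (fun z => ψ (z - s • v)) z = fderiv ℝ ψ (z - s • v) := by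
    intro s z
    exact fderiv_comp_sub (f := ψ) (x := z) (s • v)
  have hdsm : ∀ s : ℝ, ContDiff ℝ ∞ (fun z => fderiv ℝ ψ (z - s • v) v) := by
    intro s
    have h1 : ContDiff ℝ ∞ (fderiv ℝ ψ) := hψ.fderiv_right (by simp)
    exact (h1.comp (contDiff_id.sub contDiff_const)).clm_apply contDiff_const
  -- (a)
  have ha : ∀ s ∈ Icc (0 : ℝ) 1, T (wf (fun z => fderiv ℝ ψ (z - s • v) v) m) = 0 := by
    intro s hs
    have f1 := (form_wf (U := U) (hdsm s) hm hmc hmU).1
    have f2 := (form_et (U := U) (hsm s) hm hmc hmU v).1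
    have f3 := form_d f2
    have er : rest (fun z => ψ (z - s • v)) m v = (1 : ℝ) • d (et (fun z => ψ (z - s • v)) m v) +
        (-1 : ℝ) • wf (fun z => fderiv ℝ ψ (z - s • v) v) m := by
      funext x
      show d (et (fun z => ψ (z - s • v)) m v) x -
        wf (fun z => fderiv ℝ (fun z => ψ (z - s • v)) z v) m x =
        (1 : ℝ) • d (et (fun z => ψ (z - s • v)) m v) x +
        (-1 : ℝ) • wf (fun z => fderiv ℝ ψ (z - s • v) v) m x
      have : wf (fun z => fderiv ℝ (fun z => ψ (z - s • v)) z v) m x =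
          wf (fun z => fderiv ℝ ψ (z - s • v) v) m x := by
        show (fderiv ℝ (fun z => ψ (z - s • v)) x.fst v * m x) • vol = _
        rw [hder]
        rfl
      rw [this, one_smul, neg_one_smul, sub_eq_add_neg]
    have f4 : Form2 U (rest (fun z => ψ (z - s • v)) m v) := by
      rw [er]
      exact Form2.add f3 f1 _ _
    have t1 := hT.lin 1 (-1) _ _ f3 f1
    rw [← er, hd _ f2] at t1
    have t2 : T (rest (fun z => ψ (z - s • v)) m v) = 0 := by
      refine hZ _ f4 ?_
      rw [Set.disjoint_left]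
      intro x hx hxZ
      have x1 : x ∈ tsupport m := by
        have : tsupport (rest (fun z => ψ (z - s • v)) m v) ⊆ tsupport m := by
          refine closure_minimal ?_ (isClosed_tsupport _)
          intro y hy
          by_contra hn
          apply hy
          have e0 : fderiv ℝ m y = 0 := by
            have := mt (fun h => tsupport_fderiv_subset ℝ h) hn
            exact image_eq_zero_of_notMem_tsupport this
          ext a b
          rw [rest_apply (hsm s) hm, e0]
          simp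
        exact this hx
      have x2 : x.fst - s • v ∈ tsupport ψ := by
        have hcl : IsClosed {y : E | y.fst - s • v ∈ tsupport ψ} :=
          (isClosed_tsupport ψ).preimage (fs.continuous.sub continuous_const)
        have : tsupport (rest (fun z => ψ (z - s • v)) m v) ⊆
            {y : E | y.fst - s • v ∈ tsupport ψ} := by
          refine closure_minimal ?_ hcl
          intro y hy
          by_contra hn
          apply hy
          have e0 : ψ (y.fst - s • v) = 0 := image_eq_zero_of_notMem_tsupport hn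
          ext a b
          rw [rest_apply (hsm s) hm, e0]
          simp
        exact this hx
      have x3 := hcond s hs x hxZ x1 x2
      have : x ∉ tsupport (rest (fun z => ψ (z - s • v)) m v) := by
        rw [notMem_tsupport_iff_eventuallyEq]
        filter_upwards [hO.mem_nhds x3] with y hy
        ext a b
        rw [rest_apply (hsm s) hm, hmO y hy]
        simp
      exact this hx
    rw [t2] at t1
    linarith
  -- (b)
  obtain ⟨B, hB, htay⟩ := taylor ψ hψ hψc v
  obtain ⟨M, hM⟩ := hm.continuous.bounded_above_of_compact_support hmc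
  obtain ⟨C, hC⟩ := hT.fin (tsupport m) hmc.isCompact hmU
  have hM0 : 0 ≤ M := (norm_nonneg _).trans (hM 0)
  have hC0 : 0 ≤ C := by
    have h0 : Form2 U (fun _ => 0) := by
      have e : tsupport (fun _ : E => (0 : E →L[ℝ] E →L[ℝ] ℝ)) = ∅ := by
        rw [tsupport_eq_empty_iff]; rfl
      refine ⟨contDiff_const, ?_, ?_, ?_⟩
      · show IsCompact (tsupport _)
        rw [e]; exact isCompact_empty
      · rw [e]; exact empty_subset _
      · intro x v; rfl
    have e : tsupport (fun _ : E => (0 : E →L[ℝ] E →L[ℝ] ℝ)) = ∅ := by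
      rw [tsupport_eq_empty_iff]; rfl
    have := hC _ h0 (by rw [e]; exact empty_subset _) (by simp)
    exact (abs_nonneg _).trans this
  have hscale : ∀ (θ : F2) (b : ℝ), 0 < b → Form2 U θ → tsupport θ ⊆ tsupport m →
      (∀ x, ‖θ x‖ ≤ b) → |T θ| ≤ C * b := by
    intro θ b hb hθ hθs hθb
    have hf : Form2 U (b⁻¹ • θ + (0 : ℝ) • θ) := Form2.add hθ hθ _ _
    have he : b⁻¹ • θ + (0 : ℝ) • θ = b⁻¹ • θ := by rw [zero_smul, add_zero]
    have h1 := hT.lin b⁻¹ 0 _ _ hθ hθ
    rw [zero_mul, add_zero] at h1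
    have h2 := hC _ hf (by
      rw [he]
      refine Subset.trans (closure_mono ?_) hθs
      intro x hx hn
      apply hx
      show b⁻¹ • θ x = 0
      rw [hn, smul_zero]) (by
      intro x
      rw [he]
      show ‖b⁻¹ • θ x‖ ≤ 1
      rw [norm_smul, norm_inv, Real.norm_eq_abs, abs_of_pos hb, inv_mul_le_iff₀ hb, mul_one]
      exact hθb x)
    rw [h1, abs_mul, abs_inv, abs_of_pos hb, inv_mul_le_iff₀ hb] at h2
    linarith
  have hstep : ∀ s h : ℝ, s ∈ Icc (0 : ℝ) 1 → 0 < h →
      |T (wf (fun z => ψ (z - (s + h) • v)) m) - T (wf (fun z => ψ (z - s • v)) m)| ≤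
        C * (B * M * ‖vol‖ + 1) * h ^ 2 := by
    intro s h hs hh
    have f1 := (form_wf (U := U) (hsm (s + h)) hm hmc hmU)
    have f2 := (form_wf (U := U) (hsm s) hm hmc hmU)
    have f3 := (form_wf (U := U) (hdsm s) hm hmc hmU)
    have g1 := Form2.add f1.1 f2.1 1 (-1)
    have g2 := Form2.add g1 f3.1 1 h
    have l1 := hT.lin 1 (-1) _ _ f1.1 f2.1
    have l2 := hT.lin 1 h _ _ g1 f3.1
    rw [l1, ha s hs] at l2
    have hval : ∀ x, ((1 : ℝ) • ((1 : ℝ) • wf (fun z => ψ (z - (s + h) • v)) m +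
        (-1 : ℝ) • wf (fun z => ψ (z - s • v)) m) +
        h • wf (fun z => fderiv ℝ ψ (z - s • v) v) m) x =
        ((ψ (x.fst - s • v - h • v) - ψ (x.fst - s • v) + h * fderiv ℝ ψ (x.fst - s • v) v) * m x)
          • vol := by
      intro x
      show (1 : ℝ) • ((1 : ℝ) • ((ψ (x.fst - (s + h) • v) * m x) • vol) +
        (-1 : ℝ) • ((ψ (x.fst - s • v) * m x) • vol)) +
        h • ((fderiv ℝ ψ (x.fst - s • v) v * m x) • vol) = _
      have : x.fst - (s + h) • v = x.fst - s • v - h • v := by rw [add_smul]; ring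
      rw [this]
      module
    have h3 := hscale _ ((B * M * ‖vol‖ + 1) * h ^ 2) (by positivity) g2 (by
      refine closure_minimal ?_ (isClosed_tsupport _)
      intro x hx
      by_contra hn
      apply hx
      rw [hval, image_eq_zero_of_notMem_tsupport hn, mul_zero, zero_smul]) (by
      intro x
      rw [hval, norm_smul, norm_mul, Real.norm_eq_abs]
      have e1 := htay (x.fst - s • v) h
      have e2 := hM x
      have e3 : |ψ (x.fst - s • v - h • v) - ψ (x.fst - s • v) +
          h * fderiv ℝ ψ (x.fst - s • v) v| * ‖m x‖ ≤ B * h ^ 2 * M :=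
        mul_le_mul e1 e2 (norm_nonneg _) (by positivity)
      have e4 := mul_le_mul_of_nonneg_right e3 (norm_nonneg vol)
      nlinarith [sq_nonneg h])
    rw [l2] at h3
    have e5 : (1 : ℝ) * (1 * T (wf (fun z => ψ (z - (s + h) • v)) m) +
        -1 * T (wf (fun z => ψ (z - s • v)) m)) + h * 0 =
        T (wf (fun z => ψ (z - (s + h) • v)) m) - T (wf (fun z => ψ (z - s • v)) m) := by ring
    rw [e5] at h3
    linarith
  -- telescoping
  set g : ℝ → ℝ := fun s => T (wf (fun z => ψ (z - s • v)) m) with hg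
  set D : ℝ := C * (B * M * ‖vol‖ + 1) with hD
  have hsum : ∀ N : ℕ, 0 < N → |g 1 - g 0| ≤ D / N := by
    intro N hN
    have hN' : (0 : ℝ) < N := by exact_mod_cast hN
    have t1 : g 1 - g 0 = ∑ i ∈ Finset.range N, (g ((i + 1 : ℕ) / N) - g (i / N)) := by
      rw [Finset.sum_range_sub (fun i : ℕ => g ((i : ℝ) / N))]
      simp [hN'.ne']
    rw [t1]
    refine (Finset.abs_sum_le_sum_abs _ _).trans ?_
    have : ∀ i ∈ Finset.range N, |g ((i + 1 : ℕ) / N) - g (i / N)| ≤ D * (1 / N) ^ 2 := by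
      intro i hi
      have hi' : (i : ℝ) < N := by exact_mod_cast Finset.mem_range.mp hi
      have hs : (i : ℝ) / N ∈ Icc (0 : ℝ) 1 := by
        constructor
        · positivity
        · rw [div_le_one hN']; exact hi'.le
      have := hstep (i / N) (1 / N) hs (by positivity)
      have e : (i : ℝ) / N + 1 / N = ((i + 1 : ℕ) : ℝ) / N := by push_cast; ring
      rw [e] at this
      exact this
    refine (Finset.sum_le_sum this).trans ?_
    rw [Finset.sum_const, Finset.card_range, nsmul_eq_mul]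
    apply le_of_eq
    field_simp
  have hlim : Tendsto (fun N : ℕ => D / (N : ℝ)) atTop (𝓝 0) :=
    tendsto_const_div_atTop_nhds_zero_nat D
  have h0 : |g 1 - g 0| ≤ 0 := by
    refine ge_of_tendsto hlim ?_
    filter_upwards [eventually_gt_atTop 0] with N hN
    exact hsum N hN
  have h1 : g 1 = g 0 := by
    have := abs_nonpos_iff.mp h0
    linarith
  have e0 : g 0 = T (wf ψ m) := by
    show T (wf (fun z => ψ (z - (0 : ℝ) • v)) m) = _
    simp
  have e1 : g 1 = T (wf (fun z => ψ (z - v)) m) := by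
    show T (wf (fun z => ψ (z - (1 : ℝ) • v)) m) = _
    simp
  rw [← e0, ← e1, h1]

end Pool.Agent.Y897.BC.Tra
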